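import Mathlib
import Pool.Agent.TH621.Pert

open Set Filter Topology
open scoped ContDiff

namespace Pool.Agent.Results.MP_ec5dc5_gt.CountablePi0

/-- `R^{2n}` with coordinates `(x, y)`. -/
abbrev E (n : ℕ) : Type := (Fin n → ℝ) × (Fin n → ℝ)

/-- The standard symplectic form `∑ dx_i ∧ dy_i`. -/
def omega {n : ℕ} (u v : E n) : ℝ := ∑ i, (u.1 i * v.2 i - u.2 i * v.1 i)

/-- `φ` is a compactly supported symplectomorphism of `(R^{2n}, ω_st)`. -/
structure IsSympCt {n : ℕ} (φ : Equiv.Perm (E n)) : Prop where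
  smooth : ContDiff ℝ ∞ (φ : E n → E n)
  smooth_symm : ContDiff ℝ ∞ (φ.symm : E n → E n)
  symplectic : ∀ x u v : E n, omega (fderiv ℝ φ x u) (fderiv ℝ φ x v) = omega u v
  support : ∃ K : Set (E n), IsCompact K ∧ ∀ x ∉ K, φ x = x

lemma IsSympCt.one {n : ℕ} : IsSympCt (1 : Equiv.Perm (E n)) where
  smooth := contDiff_id
  smooth_symm := contDiff_id
  symplectic x u v := by
    have : fderiv ℝ (⇑(1 : Equiv.Perm (E n))) x = ContinuousLinearMap.id ℝ (E n) := fderiv_id
    rw [this]; rfl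
  support := ⟨∅, isCompact_empty, fun _ _ => rfl⟩

lemma IsSympCt.mul {n : ℕ} {φ ψ : Equiv.Perm (E n)} (hφ : IsSympCt φ) (hψ : IsSympCt ψ) :
    IsSympCt (φ * ψ) where
  smooth := hφ.smooth.comp hψ.smooth
  smooth_symm := hψ.smooth_symm.comp hφ.smooth_symm
  symplectic x u v := by
    have h : fderiv ℝ (⇑(φ * ψ)) x = (fderiv ℝ φ (ψ x)).comp (fderiv ℝ ψ x) := by
      have h1 : DifferentiableAt ℝ φ (ψ x) := (hφ.smooth.differentiable (by simp)) _
      have h2 : DifferentiableAt ℝ ψ x := (hψ.smooth.differentiable (by simp)) _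
      exact fderiv_comp x h1 h2
    rw [h]
    simp only [ContinuousLinearMap.comp_apply]
    rw [hφ.symplectic, hψ.symplectic]
  support := by
    obtain ⟨K, hK, h1⟩ := hφ.support
    obtain ⟨L, hL, h2⟩ := hψ.support
    refine ⟨K ∪ L, hK.union hL, fun x hx => ?_⟩
    rw [Equiv.Perm.mul_apply, h2 x (fun h => hx (Or.inr h)), h1 x (fun h => hx (Or.inl h))]

lemma IsSympCt.inv {n : ℕ} {φ : Equiv.Perm (E n)} (hφ : IsSympCt φ) : IsSympCt φ⁻¹ where
  smooth := hφ.smooth_symm
  smooth_symm := hφ.smooth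
  symplectic x u v := by
    have h1 : DifferentiableAt ℝ φ (φ⁻¹ x) := (hφ.smooth.differentiable (by simp)) _
    have h2 : DifferentiableAt ℝ (⇑φ⁻¹) x := (hφ.smooth_symm.differentiable (by simp)) _
    have h3 : (fderiv ℝ φ (φ⁻¹ x)).comp (fderiv ℝ (⇑φ⁻¹) x) = ContinuousLinearMap.id ℝ (E n) := by
      rw [← fderiv_comp x h1 h2]
      have : (⇑φ ∘ ⇑φ⁻¹) = (id : E n → E n) := by
        ext1 y; simp
      rw [this, fderiv_id]
    have h4 := hφ.symplectic (φ⁻¹ x) (fderiv ℝ (⇑φ⁻¹) x u) (fderiv ℝ (⇑φ⁻¹) x v)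
    rw [← h4]
    have h5 : ∀ w, fderiv ℝ φ (φ⁻¹ x) (fderiv ℝ (⇑φ⁻¹) x w) = w := fun w => by
      have := congrArg (fun L : E n →L[ℝ] E n => L w) h3
      simpa using this
    rw [h5, h5]
  support := by
    obtain ⟨K, hK, h1⟩ := hφ.support
    refine ⟨K, hK, fun x hx => ?_⟩
    rw [Equiv.Perm.inv_eq_iff_eq, h1 x hx]

/-- The compactly supported symplectomorphisms form a subgroup of the permutations of `R^{2n}`. -/
def sympSubgroup (n : ℕ) : Subgroup (Equiv.Perm (E n)) where
  carrier := {φ | IsSympCt φ}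
  one_mem' := IsSympCt.one
  mul_mem' := IsSympCt.mul
  inv_mem' := IsSympCt.inv

/-- The group `G = Symp_ct(R^{2n}, ω_st)`. -/
def SympCt (n : ℕ) : Type := sympSubgroup n

/-- The group structure of `G`: composition. -/
instance (n : ℕ) : Group (SympCt n) := inferInstanceAs (Group (sympSubgroup n))

/-- The subgroup of the elements of `G` that are the identity off the compact set `K`. -/
def SympIn (n : ℕ) (K : TopologicalSpace.Compacts (E n)) : Type :=
  {φ : SympCt n // ∀ x ∉ K, φ.1 x = x}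

/-- The `k`-th derivative of an element supported in `K`, as a continuous function on `R^{2n}`. -/
noncomputable def jet {n : ℕ} {K : TopologicalSpace.Compacts (E n)} (k : ℕ) (φ : SympIn n K) :
    C(E n, E n [×k]→L[ℝ] E n) :=
  ⟨iteratedFDeriv ℝ k (φ.1.1 : E n → E n),
    φ.1.2.smooth.continuous_iteratedFDeriv (by exact_mod_cast le_top)⟩

/-- The `C^∞` topology on the symplectomorphisms supported in `K`: uniform convergence on compact
sets of the maps and of all their derivatives (`C(X, Y)` carries the compact-open topology). -/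
noncomputable instance topIn (n : ℕ) (K : TopologicalSpace.Compacts (E n)) :
    TopologicalSpace (SympIn n K) :=
  TopologicalSpace.induced (fun φ (k : ℕ) => jet k φ) inferInstance

/-- The direct limit topology on `G`: the finest topology for which the inclusions of all the
`SympIn n K`, `K` compact, are continuous. -/
noncomputable instance topCt (n : ℕ) : TopologicalSpace (SympCt n) :=
  ⨆ K : TopologicalSpace.Compacts (E n),
    TopologicalSpace.coinduced (fun φ : SympIn n K => φ.1) (topIn n K)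

/-! ### The standard form -/

section form

variable {n : ℕ}

lemma omega_add_left (u u' v : E n) : omega (u + u') v = omega u v + omega u' v := by
  simp only [omega, Prod.fst_add, Prod.snd_add, Pi.add_apply]
  rw [← Finset.sum_add_distrib]
  exact Finset.sum_congr rfl fun i _ => by ring

lemma omega_add_right (u v v' : E n) : omega u (v + v') = omega u v + omega u v' := by
  simp only [omega, Prod.fst_add, Prod.snd_add, Pi.add_apply]
  rw [← Finset.sum_add_distrib]
  exact Finset.sum_congr rfl fun i _ => by ring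

lemma omega_smul_left (c : ℝ) (u v : E n) : omega (c • u) v = c * omega u v := by
  simp only [omega, Prod.smul_fst, Prod.smul_snd, Pi.smul_apply, smul_eq_mul, Finset.mul_sum]
  exact Finset.sum_congr rfl fun i _ => by ring

lemma omega_smul_right (c : ℝ) (u v : E n) : omega u (c • v) = c * omega u v := by
  simp only [omega, Prod.smul_fst, Prod.smul_snd, Pi.smul_apply, smul_eq_mul, Finset.mul_sum]
  exact Finset.sum_congr rfl fun i _ => by ring

/-- The midpoint identity: if `1 + D` is symplectic then `1 + c D` and `1 + d D` pull back the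
form to the same form when `c + d = 1`. -/
lemma omega_mid {D : E n → E n} (hD : ∀ u v, omega (u + D u) (v + D v) = omega u v)
    {c d : ℝ} (hcd : c + d = 1) (u v : E n) :
    omega (u + c • D u) (v + c • D v) = omega (u + d • D u) (v + d • D v) := by
  have h := hD u v
  simp only [omega_add_left, omega_add_right, omega_smul_left, omega_smul_right] at h ⊢
  have hd : d = 1 - c := by linarith
  subst hd
  linear_combination (2 * c - 1) * h

end form

/-! ### The path -/

section path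

variable {n : ℕ}

open Pool.Agent.TH621.Pert

/-- The displacement of `ψ φ⁻¹`. -/
def disp (φ ψ : SympCt n) (z : E n) : E n := ψ.1 (φ.1.symm z) - z

lemma disp_smooth (φ ψ : SympCt n) : ContDiff ℝ ∞ (disp φ ψ) :=
  (ψ.2.smooth.comp φ.2.smooth_symm).sub contDiff_id

lemma disp_diff (φ ψ : SympCt n) : Differentiable ℝ (disp φ ψ) :=
  (disp_smooth φ ψ).differentiable (by simp)

lemma disp_symplectic (φ ψ : SympCt n) (z u v : E n) :
    omega (u + fderiv ℝ (disp φ ψ) z u) (v + fderiv ℝ (disp φ ψ) z v) = omega u v := by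
  have hχ : IsSympCt (ψ.1 * φ.1⁻¹) := ψ.2.mul φ.2.inv
  have h1 : fderiv ℝ (disp φ ψ) z = fderiv ℝ (⇑(ψ.1 * φ.1⁻¹)) z - ContinuousLinearMap.id ℝ (E n) := by
    have h2 : DifferentiableAt ℝ (⇑(ψ.1 * φ.1⁻¹)) z := (hχ.smooth.differentiable (by simp)) z
    exact (h2.hasFDerivAt.sub (hasFDerivAt_id z)).fderiv
  rw [h1]
  have h3 := hχ.symplectic z u v
  simpa using h3

variable (φ ψ : SympCt n) (hb : ∀ x, ‖fderiv ℝ (disp φ ψ) x‖ ≤ 1 / 4)

lemma pert_sympl {c d : ℝ} (hc : |c| ≤ 1) (hcd : c + d = 1) (hd : |d| ≤ 1)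
    (z u v : E n) :
    omega (fderiv ℝ (pert (disp φ ψ) (disp_diff φ ψ) hb c hc) z u)
      (fderiv ℝ (pert (disp φ ψ) (disp_diff φ ψ) hb c hc) z v) =
    omega (fderiv ℝ (pert (disp φ ψ) (disp_diff φ ψ) hb d hd) z u)
      (fderiv ℝ (pert (disp φ ψ) (disp_diff φ ψ) hb d hd) z v) := by
  have h : ∀ (e : ℝ) (he : |e| ≤ 1), fderiv ℝ (pert (disp φ ψ) (disp_diff φ ψ) hb e he) z =
      ContinuousLinearMap.id ℝ (E n) + e • fderiv ℝ (disp φ ψ) z := by
    intro e he
    exact ((hasFDerivAt_id z).add (((disp_diff φ ψ) z).hasFDerivAt.const_smul e)).fderiv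
  rw [h, h]
  exact omega_mid (D := fun u => fderiv ℝ (disp φ ψ) z u) (disp_symplectic φ ψ z) hcd u v

lemma pert_symm_smooth {c : ℝ} (hc : |c| ≤ 1) :
    ContDiff ℝ ∞ (pert (disp φ ψ) (disp_diff φ ψ) hb c hc).symm := by
  have h := contDiff_pert_symm (disp φ ψ) (disp_diff φ ψ) hb (disp_smooth φ ψ) (fun _ => c)
    contDiff_const (fun _ => hc)
  exact h.comp ((contDiff_const (c := (0 : ℝ))).prodMk contDiff_id)

lemma pert_smooth {c : ℝ} (hc : |c| ≤ 1) :
    ContDiff ℝ ∞ (pert (disp φ ψ) (disp_diff φ ψ) hb c hc) :=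
  contDiff_id.add ((disp_smooth φ ψ).const_smul c)

lemma disp_eq_zero {x : E n} (h1 : φ.1 x = x) (h2 : ψ.1 x = x) : disp φ ψ x = 0 := by
  have : φ.1.symm x = x := by rw [Equiv.symm_apply_eq, h1]
  rw [disp, this, h2, sub_self]

/-- The elements of the path. -/
lemma pert_isSympCt {c d : ℝ} (hc : |c| ≤ 1) (hcd : c + d = 1) (hd : |d| ≤ 1) :
    IsSympCt (pert (disp φ ψ) (disp_diff φ ψ) hb d hd *
      (pert (disp φ ψ) (disp_diff φ ψ) hb c hc)⁻¹) where
  smooth := (pert_smooth φ ψ hb hd).comp (pert_symm_smooth φ ψ hb hc)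
  smooth_symm := (pert_smooth φ ψ hb hc).comp (pert_symm_smooth φ ψ hb hd)
  symplectic x u v := by
    set a := pert (disp φ ψ) (disp_diff φ ψ) hb c hc with ha
    set b := pert (disp φ ψ) (disp_diff φ ψ) hb d hd with hb'
    have da : Differentiable ℝ a := (pert_smooth φ ψ hb hc).differentiable (by simp)
    have db : Differentiable ℝ b := (pert_smooth φ ψ hb hd).differentiable (by simp)
    have das : Differentiable ℝ (⇑a⁻¹) := (pert_symm_smooth φ ψ hb hc).differentiable (by simp)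
    have h1 : fderiv ℝ (⇑(b * a⁻¹)) x = (fderiv ℝ b (a⁻¹ x)).comp (fderiv ℝ (⇑a⁻¹) x) :=
      fderiv_comp x (db _) (das _)
    have h3 : (fderiv ℝ a (a⁻¹ x)).comp (fderiv ℝ (⇑a⁻¹) x) = ContinuousLinearMap.id ℝ (E n) := by
      rw [← fderiv_comp x (da _) (das _)]
      have : (⇑a ∘ ⇑a⁻¹) = (id : E n → E n) := by
        ext1 y; simp
      rw [this, fderiv_id]
    have h5 : ∀ w, fderiv ℝ a (a⁻¹ x) (fderiv ℝ (⇑a⁻¹) x w) = w := fun w => by
      have := congrArg (fun L : E n →L[ℝ] E n => L w) h3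
      simpa using this
    rw [h1]
    simp only [ContinuousLinearMap.comp_apply]
    rw [← pert_sympl φ ψ hb hc hcd hd, ← ha, h5, h5]
  support := by
    obtain ⟨K, hK, h1⟩ := φ.2.support
    obtain ⟨L, hL, h2⟩ := ψ.2.support
    refine ⟨K ∪ L, hK.union hL, fun x hx => ?_⟩
    have h3 : disp φ ψ x = 0 :=
      disp_eq_zero φ ψ (h1 x fun h => hx (Or.inl h)) (h2 x fun h => hx (Or.inr h))
    have h4 : ∀ (e : ℝ) (he : |e| ≤ 1), pert (disp φ ψ) (disp_diff φ ψ) hb e he x = x := by
      intro e he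
      rw [pert_apply, h3, smul_zero, add_zero]
    rw [Equiv.Perm.mul_apply]
    have h5 : (pert (disp φ ψ) (disp_diff φ ψ) hb c hc)⁻¹ x = x := by
      rw [Equiv.Perm.inv_eq_iff_eq, h4]
    rw [h5, h4]

/-- the first parameter -/
noncomputable def c1 (t : ℝ) : ℝ := (1 - Real.smoothTransition t) / 2
/-- the second parameter -/
noncomputable def c2 (t : ℝ) : ℝ := (1 + Real.smoothTransition t) / 2

lemma c1_le (t : ℝ) : |c1 t| ≤ 1 := by
  have h0 := Real.smoothTransition.nonneg t
  have h1 := Real.smoothTransition.le_one t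
  rw [abs_le, c1]; constructor <;> linarith

lemma c2_le (t : ℝ) : |c2 t| ≤ 1 := by
  have h0 := Real.smoothTransition.nonneg t
  have h1 := Real.smoothTransition.le_one t
  rw [abs_le, c2]; constructor <;> linarith

lemma c1_add_c2 (t : ℝ) : c1 t + c2 t = 1 := by rw [c1, c2]; ring

lemma c1_smooth : ContDiff ℝ ∞ c1 :=
  (contDiff_const.sub Real.smoothTransition.contDiff).div_const 2

lemma c2_smooth : ContDiff ℝ ∞ c2 :=
  (contDiff_const.add Real.smoothTransition.contDiff).div_const 2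

/-- The path from `φ` to `ψ`, before bundling. -/
noncomputable def gam (t : ℝ) : Equiv.Perm (E n) :=
  pert (disp φ ψ) (disp_diff φ ψ) hb (c2 t) (c2_le t) *
    (pert (disp φ ψ) (disp_diff φ ψ) hb (c1 t) (c1_le t))⁻¹ * φ.1

lemma gam_isSympCt (t : ℝ) : IsSympCt (gam φ ψ hb t) :=
  (pert_isSympCt φ ψ hb (c1_le t) (c1_add_c2 t) (c2_le t)).mul φ.2

lemma gam_smooth : ContDiff ℝ ∞ (fun p : ℝ × E n => gam φ ψ hb p.1 p.2) := by
  have h1 := contDiff_pert_symm (disp φ ψ) (disp_diff φ ψ) hb (disp_smooth φ ψ) c1 c1_smooth c1_le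
  have h2 : ContDiff ℝ ∞ (fun p : ℝ × E n =>
      (pert (disp φ ψ) (disp_diff φ ψ) hb (c1 p.1) (c1_le p.1)).symm (φ.1 p.2)) :=
    h1.comp (contDiff_fst.prodMk (φ.2.smooth.comp contDiff_snd))
  exact h2.add ((c2_smooth.comp contDiff_fst).smul ((disp_smooth φ ψ).comp h2))

lemma gam_zero : gam φ ψ hb 0 = φ.1 := by
  have h : c2 0 = c1 0 := by rw [c1, c2, Real.smoothTransition.zero]; norm_num
  unfold gam
  have h2 : pert (disp φ ψ) (disp_diff φ ψ) hb (c2 0) (c2_le 0) =
      pert (disp φ ψ) (disp_diff φ ψ) hb (c1 0) (c1_le 0) := by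
    ext1 z
    rw [pert_apply, pert_apply, h]
  rw [h2, mul_inv_cancel, one_mul]

lemma gam_one : gam φ ψ hb 1 = ψ.1 := by
  have h : c1 1 = 0 := by rw [c1, Real.smoothTransition.one]; norm_num
  have h' : c2 1 = 1 := by rw [c2, Real.smoothTransition.one]; norm_num
  have h2 : pert (disp φ ψ) (disp_diff φ ψ) hb (c1 1) (c1_le 1) = 1 := by
    ext1 z
    rw [pert_apply, h, zero_smul, add_zero]; rfl
  unfold gam
  rw [h2, inv_one, mul_one]
  ext1 z
  rw [Equiv.Perm.mul_apply, pert_apply, h', one_smul, disp, Equiv.symm_apply_apply]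
  abel

lemma gam_support {x : E n} (h1 : φ.1 x = x) (h2 : ψ.1 x = x) (t : ℝ) : gam φ ψ hb t x = x := by
  have h3 : disp φ ψ x = 0 := disp_eq_zero φ ψ h1 h2
  have h4 : ∀ (e : ℝ) (he : |e| ≤ 1), pert (disp φ ψ) (disp_diff φ ψ) hb e he x = x := by
    intro e he
    rw [pert_apply, h3, smul_zero, add_zero]
  unfold gam
  rw [Equiv.Perm.mul_apply, Equiv.Perm.mul_apply, h1]
  have h5 : (pert (disp φ ψ) (disp_diff φ ψ) hb (c1 t) (c1_le t))⁻¹ x = x := by
    rw [Equiv.Perm.inv_eq_iff_eq, h4]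
  rw [h5, h4]

end path

/-! ### Local path-connectedness -/

section loc

variable {n : ℕ} {K : TopologicalSpace.Compacts (E n)}

/-- Two `C¹`-close elements supported in `K` are joined by a path of elements supported in `K`. -/
lemma joined_in (φ ψ : SympIn n K) (hb : ∀ x, ‖fderiv ℝ (disp φ.1 ψ.1) x‖ ≤ 1 / 4) :
    Joined φ ψ := by
  let γ : ℝ → SympIn n K := fun t => ⟨⟨gam φ.1 ψ.1 hb t, gam_isSympCt φ.1 ψ.1 hb t⟩,
    fun x hx => gam_support φ.1 ψ.1 hb (φ.2 x hx) (ψ.2 x hx) t⟩
  have hγ : Continuous γ := by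
    rw [continuous_induced_rng]
    refine continuous_pi fun k => ?_
    refine ContinuousMap.continuous_of_continuous_uncurry _ ?_
    exact (Pool.Agent.TH621.Pert.contDiff_iteratedFDeriv_param
      (fun t x => gam φ.1 ψ.1 hb t x) (gam_smooth φ.1 ψ.1 hb) k).continuous
  refine ⟨⟨⟨fun t => γ t, hγ.comp continuous_subtype_val⟩, ?_, ?_⟩⟩
  · exact Subtype.ext (Subtype.ext (gam_zero φ.1 ψ.1 hb))
  · exact Subtype.ext (Subtype.ext (gam_one φ.1 ψ.1 hb))

/-- The inclusions into the direct limit are continuous. -/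
lemma continuous_incl : Continuous (fun φ : SympIn n K => (φ.1 : SympCt n)) :=
  continuous_iSup_rng (i := K) continuous_coinduced_rng

/-- Off `K` the derivative of an element supported in `K` is the identity. -/
lemma fderiv_off (φ : SympIn n K) {x : E n} (hx : x ∉ K) :
    fderiv ℝ (φ.1.1 : E n → E n) x = ContinuousLinearMap.id ℝ (E n) := by
  have h : (φ.1.1 : E n → E n) =ᶠ[𝓝 x] id := by
    filter_upwards [K.isCompact.isClosed.isOpen_compl.mem_nhds hx] with y hy
    exact φ.2 y hy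
  rw [h.fderiv_eq, fderiv_id]

lemma fderiv_symm_off (φ : SympIn n K) {x : E n} (hx : x ∉ K) :
    fderiv ℝ (φ.1.1.symm : E n → E n) x = ContinuousLinearMap.id ℝ (E n) := by
  have h : (φ.1.1.symm : E n → E n) =ᶠ[𝓝 x] id := by
    filter_upwards [K.isCompact.isClosed.isOpen_compl.mem_nhds hx] with y hy
    show φ.1.1.symm y = y
    rw [Equiv.symm_apply_eq, φ.2 y hy]
  rw [h.fderiv_eq, fderiv_id]

/-- The derivative of the inverse is bounded. -/
lemma exists_bound (φ : SympIn n K) :
    ∃ C : ℝ, 0 < C ∧ ∀ x, ‖fderiv ℝ (φ.1.1.symm : E n → E n) x‖ ≤ C := by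
  have hc : Continuous (fun x => fderiv ℝ (φ.1.1.symm : E n → E n) x) :=
    φ.1.2.smooth_symm.continuous_fderiv (by simp)
  obtain ⟨C, hC⟩ := K.isCompact.exists_bound_of_continuousOn hc.continuousOn
  refine ⟨max C 1, lt_max_of_lt_right one_pos, fun x => ?_⟩
  by_cases hx : x ∈ K
  · exact (hC x hx).trans (le_max_left _ _)
  · rw [fderiv_symm_off φ hx]
    exact ContinuousLinearMap.norm_id_le.trans (le_max_right _ _)

lemma fderiv_disp (φ ψ : SympCt n) (z : E n) :
    fderiv ℝ (disp φ ψ) z = (fderiv ℝ (ψ.1 : E n → E n) (φ.1.symm z) -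
      fderiv ℝ (φ.1 : E n → E n) (φ.1.symm z)).comp (fderiv ℝ (φ.1.symm : E n → E n) z) := by
  have h1 : DifferentiableAt ℝ (φ.1.symm : E n → E n) z :=
    (φ.2.smooth_symm.differentiable (by simp)) z
  have h2 : DifferentiableAt ℝ (φ.1 : E n → E n) (φ.1.symm z) :=
    (φ.2.smooth.differentiable (by simp)) _
  have h3 : DifferentiableAt ℝ (ψ.1 : E n → E n) (φ.1.symm z) :=
    (ψ.2.smooth.differentiable (by simp)) _
  have h4 : disp φ ψ = fun z => ψ.1 (φ.1.symm z) - φ.1 (φ.1.symm z) := by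
    ext1 z; rw [disp, Equiv.apply_symm_apply]
  rw [h4, ContinuousLinearMap.sub_comp]
  exact ((h3.hasFDerivAt.comp z h1.hasFDerivAt).sub (h2.hasFDerivAt.comp z h1.hasFDerivAt)).fderiv

lemma norm_jet_one (φ ψ : SympIn n K) (x : E n) :
    ‖fderiv ℝ (ψ.1.1 : E n → E n) x - fderiv ℝ (φ.1.1 : E n → E n) x‖ =
      ‖jet 1 ψ x - jet 1 φ x‖ := by
  have h2 : DifferentiableAt ℝ (φ.1.1 : E n → E n) x := (φ.1.2.smooth.differentiable (by simp)) _
  have h3 : DifferentiableAt ℝ (ψ.1.1 : E n → E n) x := (ψ.1.2.smooth.differentiable (by simp)) _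
  have h : jet 1 ψ x - jet 1 φ x = iteratedFDeriv ℝ 1 (fun y => ψ.1.1 y - φ.1.1 y) x := by
    have := iteratedFDeriv_sub_apply (𝕜 := ℝ) (i := 1) (x := x)
      (f := (ψ.1.1 : E n → E n)) (g := (φ.1.1 : E n → E n))
      (ψ.1.2.smooth.contDiffAt.of_le (by simp)) (φ.1.2.smooth.contDiffAt.of_le (by simp))
    exact this.symm
  rw [h, norm_iteratedFDeriv_one, fderiv_fun_sub h3 h2]

/-- Every element has a neighbourhood (among the elements supported in `K`) all of whose
elements are joined to it. -/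
lemma joined_nhds (φ : SympIn n K) : {ψ : SympIn n K | Joined φ ψ} ∈ 𝓝 φ := by
  obtain ⟨C, hC0, hC⟩ := exists_bound φ
  have hcont : Continuous (fun ψ : SympIn n K => (jet 1 ψ).restrict (K : Set (E n))) := by
    have h1 : Continuous (fun ψ : SympIn n K => fun k : ℕ => jet k ψ) := continuous_induced_dom
    have h2 : Continuous (fun ψ : SympIn n K => jet 1 ψ) := (continuous_apply 1).comp h1
    exact (ContinuousMap.continuous_restrict _).comp h2
  have : CompactSpace (K : Set (E n)) := isCompact_iff_compactSpace.1 K.isCompact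
  have hU : {ψ : SympIn n K | dist ((jet 1 ψ).restrict (K : Set (E n)))
      ((jet 1 φ).restrict (K : Set (E n))) < 1 / (4 * C)} ∈ 𝓝 φ := by
    refine (isOpen_lt (hcont.dist continuous_const) continuous_const).mem_nhds ?_
    rw [Set.mem_ofPred_eq, dist_self]
    positivity
  refine mem_of_superset hU fun ψ hψ => ?_
  refine joined_in φ ψ fun z => ?_
  rw [fderiv_disp]
  have h1 : ‖fderiv ℝ (ψ.1.1 : E n → E n) (φ.1.1.symm z) -
      fderiv ℝ (φ.1.1 : E n → E n) (φ.1.1.symm z)‖ ≤ 1 / (4 * C) := by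
    by_cases hx : φ.1.1.symm z ∈ K
    · rw [norm_jet_one, ← dist_eq_norm]
      exact ((ContinuousMap.dist_apply_le_dist (f := (jet 1 ψ).restrict (K : Set (E n)))
        (g := (jet 1 φ).restrict (K : Set (E n))) ⟨_, hx⟩).trans (le_of_lt hψ))
    · rw [fderiv_off φ hx, fderiv_off ψ hx, sub_self, norm_zero]
      positivity
  calc _ ≤ _ := ContinuousLinearMap.opNorm_comp_le _ _
    _ ≤ 1 / (4 * C) * C := mul_le_mul h1 (hC z) (norm_nonneg _) (by positivity)
    _ = 1 / 4 := by field_simp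

end loc

/-! ### Second countability and conclusion -/

lemma finDim (n k : ℕ) : FiniteDimensional ℝ (E n [×k]→L[ℝ] E n) := by
  refine FiniteDimensional.of_injective
    (ContinuousMultilinearMap.toMultilinearMapLinear :
      (E n [×k]→L[ℝ] E n) →ₗ[ℝ] MultilinearMap ℝ (fun _ : Fin k => E n) (E n)) ?_
  exact ContinuousMultilinearMap.toMultilinearMap_injective

instance secondCountable (n : ℕ) (K : TopologicalSpace.Compacts (E n)) :
    SecondCountableTopology (SympIn n K) := by
  have : ∀ k : ℕ, SecondCountableTopology (E n [×k]→L[ℝ] E n) := fun k => by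
    have := finDim n k
    have : ProperSpace (E n [×k]→L[ℝ] E n) := FiniteDimensional.proper_real _
    infer_instance
  exact TopologicalSpace.secondCountableTopology_induced _ _ _

/-- **`π₀` of the group of compactly supported symplectomorphisms of `R^{2n}` is countable.** -/
theorem result (n : ℕ) : Countable (ZerothHomotopy (SympCt n)) := by
  -- the components met by the elements supported in `K`
  have hK : ∀ K : TopologicalSpace.Compacts (E n),
      (Set.range fun φ : SympIn n K => (Quotient.mk _ φ.1 : ZerothHomotopy (SympCt n))).Countable := by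
    intro K
    obtain ⟨s, hs, hcov⟩ := TopologicalSpace.countable_cover_nhds
      (f := fun φ : SympIn n K => {ψ : SympIn n K | Joined φ ψ}) joined_nhds
    refine (hs.image fun φ : SympIn n K =>
      (Quotient.mk _ φ.1 : ZerothHomotopy (SympCt n))).mono ?_
    rintro _ ⟨ψ, rfl⟩
    have hψ : ψ ∈ ⋃ φ ∈ s, {ψ : SympIn n K | Joined φ ψ} := by rw [hcov]; trivial
    simp only [Set.mem_iUnion] at hψ
    obtain ⟨φ, hφ, hj⟩ := hψ
    refine ⟨φ, hφ, Quotient.sound ?_⟩
    exact hj.map continuous_incl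
  have hall : (Set.univ : Set (ZerothHomotopy (SympCt n))) ⊆
      ⋃ j : ℕ, Set.range fun φ : SympIn n ⟨Metric.closedBall 0 j, isCompact_closedBall 0 j⟩ =>
        (Quotient.mk _ φ.1 : ZerothHomotopy (SympCt n)) := by
    intro q _
    induction q using Quotient.inductionOn with
    | _ φ =>
      obtain ⟨K, hK, h1⟩ := φ.2.support
      obtain ⟨R, hR⟩ := hK.isBounded.subset_closedBall (0 : E n)
      obtain ⟨j, hj⟩ := exists_nat_ge R
      refine Set.mem_iUnion.2 ⟨j, ⟨⟨φ, fun x hx => h1 x fun hxK => hx ?_⟩, rfl⟩⟩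
      exact Metric.closedBall_subset_closedBall hj (hR hxK)
  rw [← Set.countable_univ_iff]
  exact (Set.countable_iUnion fun j => hK _).mono hall

end Pool.Agent.Results.MP_ec5dc5_gt.CountablePi0
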